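import Pool.Agent.Q204.DS.Preds

set_option autoImplicit false

/-!
# First-order logic in the `D_st` topos
-/

namespace Q204.DS



/-- First-order formulas (with all connectives primitive). -/
inductive Fml (L : FirstOrder.Language.{0, 0}) : Type
  | eq (t s : L.Term ℕ) : Fml L
  | rel {n : ℕ} (R : L.Relations n) (ts : Fin n → L.Term ℕ) : Fml L
  | bot : Fml L
  | and (φ χ : Fml L) : Fml L
  | or (φ χ : Fml L) : Fml L
  | imp (φ χ : Fml L) : Fml L
  | all (x : ℕ) (φ : Fml L) : Fml L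
  | ex (x : ℕ) (φ : Fml L) : Fml L

/-- Satisfaction in `Sets`. -/
def Sat {L : FirstOrder.Language.{0, 0}} (M : Type) [L.Structure M] : Fml L → (ℕ → M) → Prop
  | .eq t s, v => t.realize v = s.realize v
  | .rel R ts, v => FirstOrder.Language.Structure.RelMap R (fun i => (ts i).realize v)
  | .bot, _ => False
  | .and φ χ, v => Sat M φ v ∧ Sat M χ v
  | .or φ χ, v => Sat M φ v ∨ Sat M χ v
  | .imp φ χ, v => Sat M φ v → Sat M χ v
  | .all x φ, v => ∀ a : M, Sat M φ (Function.update v x a)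
  | .ex x φ, v => ∃ a : M, Sat M φ (Function.update v x a)

/-- `P` interprets the formula `φ` over `∇M`, in the context of all assignments; the parameter `At`
says which predicates over `I` interpret a subset of `I`. Every connective and quantifier is given
by its universal property in the tripos. -/
def Interp (At : ∀ I : Type, Set I → (I → Sst) → Prop) {L : FirstOrder.Language.{0, 0}} (M : Type)
    [L.Structure M] : Fml L → ((ℕ → M) → Sst) → Prop
  | .eq t s, P => At (ℕ → M) {v | t.realize v = s.realize v} P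
  | .rel R ts, P =>
      At (ℕ → M) {v | FirstOrder.Language.Structure.RelMap R (fun i => (ts i).realize v)} P
  | .bot, P => ∀ ψ, Ent P ψ
  | .and φ χ, P => ∃ A B, Interp At M φ A ∧ Interp At M χ B ∧
      ∀ ψ, Ent ψ P ↔ Ent ψ A ∧ Ent ψ B
  | .or φ χ, P => ∃ A B, Interp At M φ A ∧ Interp At M χ B ∧
      ∀ ψ, Ent P ψ ↔ Ent A ψ ∧ Ent B ψ
  | .imp φ χ, P => ∃ A B, Interp At M φ A ∧ Interp At M χ B ∧
      ∀ ψ, Ent ψ P ↔ ∀ C, Ent C ψ → Ent C A → Ent C B
  | .all x φ, P => ∃ A, Interp At M φ A ∧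
      ∀ ψ, Ent ψ P ↔ Ent (fun p : (ℕ → M) × M => ψ p.1)
        (fun p : (ℕ → M) × M => A (Function.update p.1 x p.2))
  | .ex x φ, P => ∃ A, Interp At M φ A ∧
      ∀ ψ, Ent P ψ ↔ Ent (fun p : (ℕ → M) × M => A (Function.update p.1 x p.2))
        (fun p : (ℕ → M) × M => ψ p.1)

/-- The usual reading of the constant objects functor: `A ⊆ I` is interpreted by the predicate
which classifies `∇A ↪ ∇I`, the image of `⊤` along the inclusion of `A`. -/
def IsImage (I : Type) (A : Set I) (P : I → Sst) : Prop :=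
  ∀ ψ : I → Sst, Ent P ψ ↔ Ent (fun _ : A => top) (fun i : A => ψ i)

/-- The literal reading: `A ⊆ I` is interpreted by the predicate which is `⊤` on `A` and `⊥`
outside. -/
def IsLit (I : Type) (A : Set I) (P : I → Sst) : Prop :=
  ∀ i, (i ∈ A → P i = top) ∧ (i ∉ A → P i = bot)

/-- The value of a predicate at `v` is true. -/
def Holds {I : Type} (P : I → Sst) (v : I) : Prop :=
  Ent (fun _ : Unit => top) (fun _ : Unit => P v)

/-- `∇` preserves and reflects first-order logic. -/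
def PreservesAndReflects (At : ∀ I : Type, Set I → (I → Sst) → Prop) : Prop :=
  ∀ (L : FirstOrder.Language.{0, 0}) (M : Type) [L.Structure M] (φ : Fml L) (P : (ℕ → M) → Sst),
    Interp At M φ P → ∀ v, (Sat M φ v ↔ Holds P v)

/-- The formula `∀ x₀ (x₀ = x₁ ∨ ¬ x₀ = x₁)`. -/
def dec (L : FirstOrder.Language.{0, 0}) : Fml L :=
  .all 0 (.or (.eq (FirstOrder.Language.Term.var 0) (FirstOrder.Language.Term.var 1))
    (.imp (.eq (FirstOrder.Language.Term.var 0) (FirstOrder.Language.Term.var 1)) .bot))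

theorem sat_dec {L : FirstOrder.Language.{0, 0}} (M : Type) [L.Structure M] (v : ℕ → M) :
    Sat M (dec L) v := fun _ => em _

theorem isImage_eps (I : Type) (A : Set I) : IsImage I A (fun i => eps (i ∈ A)) :=
  fun ψ => eps_image A ψ

theorem isLit_chi (I : Type) (A : Set I) : IsLit I A (fun i => chi (i ∈ A)) :=
  fun _ => ⟨fun h => chi_true h, fun h => chi_false h⟩

/-- Equivalence of predicates. -/
def Eqv {I : Type} (φ ψ : I → Sst) : Prop := Ent φ ψ ∧ Ent ψ φ

theorem eqv_of_image {I : Type} {A : Set I} {P : I → Sst} (h : IsImage I A P) :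
    Eqv P (fun i => eps (i ∈ A)) :=
  ⟨(h _).2 ((eps_image A _).1 (Ent.refl _)), (eps_image A _).2 ((h _).1 (Ent.refl _))⟩

theorem eqv_of_lit {I : Type} {A : Set I} {P : I → Sst} (h : IsLit I A P) :
    Eqv P (fun i => chi (i ∈ A)) := by
  have : P = fun i => chi (i ∈ A) := by
    funext i
    by_cases hi : i ∈ A
    · rw [(h i).1 hi, chi_true hi]
    · rw [(h i).2 hi, chi_false hi]
  rw [this]
  exact ⟨Ent.refl _, Ent.refl _⟩

section
variable {L : FirstOrder.Language.{0, 0}} {M : Type} [L.Structure M]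
  {At : ∀ I : Type, Set I → (I → Sst) → Prop}

/-- The set of assignments with `x₀ = x₁`. -/
abbrev Eq01 (M : Type) : Set (ℕ → M) := {v | v 0 = v 1}

/-- General form: if subsets are interpreted by `a` up to equivalence and `n` is the negation of
`a` and `d` is their join, where `∀ d = ⊥`, then the formula `dec` is interpreted by `⊥`. -/
theorem interp_dec {a n d : (ℕ → M) → Sst} (hAt : At _ (Eq01 M) a)
    (hAt' : ∀ P, At _ (Eq01 M) P → Eqv P a)
    (hn : ∀ ψ, Ent ψ n ↔ ∀ C, Ent C ψ → Ent C a → Ent C (fun _ => bot))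
    (hd : ∀ ψ, Ent d ψ ↔ Ent a ψ ∧ Ent n ψ)
    (hall : ∀ ψ : (ℕ → M) → Sst, Ent ψ (fun _ => bot) ↔
      Ent (fun p : (ℕ → M) × M => ψ p.1) (fun p : (ℕ → M) × M => d (Function.update p.1 0 p.2))) :
    Interp At M (dec L) (fun _ => bot) ∧
      ∀ P, Interp At M (dec L) P → Ent P (fun _ => bot) := by
  constructor
  · refine ⟨d, ⟨a, n, hAt, ⟨a, fun _ => bot, hAt, fun ψ => bot_ent ψ, hn⟩, hd⟩, hall⟩
  · rintro P ⟨D, ⟨E, N, hE, ⟨E', B, hE', hB, hN⟩, hD⟩, hP⟩
    obtain ⟨e1, e2⟩ := hAt' E hE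
    obtain ⟨e1', e2'⟩ := hAt' E' hE'
    have hNn : Ent N n := (hn _).2 fun C h1 h2 =>
      ((hN N).1 (Ent.refl _) C h1 (h2.trans e2')).trans (hB _)
    have hnN : Ent n N := (hN _).2 fun C h1 h2 =>
      ((hn n).1 (Ent.refl _) C h1 (h2.trans e1')).trans (bot_ent _)
    have hDd : Ent D d := (hD _).2 ⟨e1.trans ((hd d).1 (Ent.refl _)).1,
      hNn.trans ((hd d).1 (Ent.refl _)).2⟩
    have h1 := (hP P).1 (Ent.refl _)
    exact (hall P).2 (h1.trans (hDd.reindex (fun p : (ℕ → M) × M => Function.update p.1 0 p.2)))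

theorem update_mem (p : (ℕ → M) × M) : (Function.update p.1 0 p.2 ∈ Eq01 M) ↔ p.2 = p.1 1 := by
  show Function.update p.1 0 p.2 0 = Function.update p.1 0 p.2 1 ↔ _
  rw [Function.update_self, Function.update_of_ne (by norm_num)]

theorem dec_image [Nontrivial M] : Interp IsImage M (dec L) (fun _ => bot) ∧
    ∀ P, Interp IsImage M (dec L) P → Ent P (fun _ => bot) := by
  refine interp_dec (a := fun v => eps (v ∈ Eq01 M)) (n := fun v => chi (¬ v ∈ Eq01 M))
    (d := fun v => dd (v ∈ Eq01 M)) (isImage_eps _ _) (fun P h => eqv_of_image h)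
    (fun ψ => neg_eps _ ψ) (fun ψ => dd_join _ ψ) (fun ψ => ?_)
  refine all_dd (fun v m => Function.update v 0 m ∈ Eq01 M) (fun v => ⟨v 1, ?_⟩) (fun v => ?_) ψ
  · exact (update_mem (v, v 1)).2 rfl
  · obtain ⟨m, hm⟩ := exists_ne (v 1)
    exact ⟨m, fun h => hm ((update_mem (v, m)).1 h)⟩

theorem dec_lit [Nontrivial M] : Interp IsLit M (dec L) (fun _ => bot) ∧
    ∀ P, Interp IsLit M (dec L) P → Ent P (fun _ => bot) := by
  refine interp_dec (a := fun v => chi (v ∈ Eq01 M)) (n := fun v => eps (¬ v ∈ Eq01 M))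
    (d := fun v => dd (¬ v ∈ Eq01 M)) (isLit_chi _ _) (fun P h => eqv_of_lit h)
    (fun ψ => neg_chi _ ψ) (fun ψ => ?_) (fun ψ => ?_)
  · have h := dd_join (fun v : ℕ → M => ¬ v ∈ Eq01 M) ψ
    simp only [not_not] at h
    rw [h]
    exact and_comm
  · refine all_dd (fun v m => ¬ Function.update v 0 m ∈ Eq01 M) (fun v => ?_)
      (fun v => ⟨v 1, ?_⟩) ψ
    · obtain ⟨m, hm⟩ := exists_ne (v 1)
      exact ⟨m, fun h => hm ((update_mem (v, m)).1 h)⟩
    · exact not_not.2 ((update_mem (v, v 1)).2 rfl)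

theorem not_holds {P : (ℕ → M) → Sst} (h : Ent P (fun _ => bot)) (v : ℕ → M) : ¬ Holds P v :=
  fun h' => not_top_bot (Ent.trans h' (h.reindex (fun _ : Unit => v)))

end

/-- The literal equality predicate on a set with two elements is not transitive. -/
theorem lit_not_trans {X : Type} [Nontrivial X] : ¬ ∀ C : X × X × X → Sst,
    Ent C (fun p => chi (p.1 = p.2.1)) → Ent C (fun p => chi (p.2.1 = p.2.2)) →
    Ent C (fun p => chi (p.1 = p.2.2)) := by
  intro H
  obtain ⟨a, b, hab⟩ := exists_pair_ne X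
  set C : X × X × X → Sst := fun p => ⟨∅, {k | (k = 0 ∧ p.1 ≠ p.2.1) ∨ (k = 1 ∧ p.2.1 ≠ p.2.2)},
    fun _ _ => False, fun _ _ h => h.elim, fun _ _ _ _ _ h => h⟩ with hC
  have h1 : Ent C (fun p => chi (p.1 = p.2.1)) := by
    refine ent_of (f := fun _ => Part.some 0) (g := fun p => Part.some 1)
      (Computable.const 0).partrec (Computable.const 1).partrec fun i u hu => ?_
    exact ⟨0, Part.mem_some _, zero_mem_star _, fun b hb => ⟨1, Part.mem_some _,
      fun k hk => Or.inl ⟨testBit_one hk, hb.2⟩, fun hc => (hc 0 testBit_one_zero).elim⟩⟩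
  have h2 : Ent C (fun p => chi (p.2.1 = p.2.2)) := by
    refine ent_of (f := fun _ => Part.some 0) (g := fun p => Part.some 2)
      (Computable.const 0).partrec (Computable.const 2).partrec fun i u hu => ?_
    exact ⟨0, Part.mem_some _, zero_mem_star _, fun b hb => ⟨2, Part.mem_some _,
      fun k hk => Or.inr ⟨testBit_pow (f := 1) (by simpa using hk), hb.2⟩,
      fun hc => (hc 1 (testBit_pow_self 1)).elim⟩⟩
  obtain ⟨f, g, -, -, r⟩ := (H C h1 h2).real
  obtain ⟨u, -, -, k⟩ := r (a, b, b) 0 (zero_mem_star _)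
  obtain ⟨w, hw, hw', k2⟩ := k 0 ⟨rfl, hab⟩
  obtain ⟨u', -, -, k'⟩ := r (a, a, b) 0 (zero_mem_star _)
  obtain ⟨w', hw2, hw2', -⟩ := k' 0 ⟨rfl, hab⟩
  have := Part.mem_unique hw hw2
  subst this
  exact k2 fun c hc => by
    rcases hw' c hc with ⟨h3, -⟩ | ⟨-, h3⟩
    · rcases hw2' c hc with ⟨-, h4⟩ | ⟨h4, -⟩
      · exact h4 rfl
      · exact absurd (h3.symm.trans h4) (by norm_num)
    · exact h3 rfl

end Q204.DS
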