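import Pool.Agent.Q204.DS.Logic

set_option autoImplicit false

/-!
# The object `∇ℕ` of the `D_st` topos is not a natural numbers object
-/

namespace Q204.DS

/-- `(X, E)` is an object of the `D_st` topos: the equality predicate `E` is symmetric and
transitive. Meets on the left of `⊢` are expressed by quantification over all `C` below both
predicates. -/
structure IsObj {X : Type} (E : X × X → Sst) : Prop where
  symm : Ent E (fun p => E (p.2, p.1))
  trans : ∀ C : X × X × X → Sst, Ent C (fun p => E (p.1, p.2.1)) →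
    Ent C (fun p => E (p.2.1, p.2.2)) → Ent C (fun p => E (p.1, p.2.2))

/-- `F` is a functional relation from `(X, E)` to `(Y, E')`; these represent the morphisms of the
`D_st` topos. -/
structure IsFun {X Y : Type} (E : X × X → Sst) (E' : Y × Y → Sst) (F : X × Y → Sst) : Prop where
  strict_left : Ent F (fun p => E (p.1, p.1))
  strict_right : Ent F (fun p => E' (p.2, p.2))
  ext : ∀ C : (X × X) × (Y × Y) → Sst,
    Ent C (fun p => F (p.1.1, p.2.1)) → Ent C (fun p => E (p.1.1, p.1.2)) →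
    Ent C (fun p => E' (p.2.1, p.2.2)) → Ent C (fun p => F (p.1.2, p.2.2))
  sv : ∀ C : X × Y × Y → Sst, Ent C (fun p => F (p.1, p.2.1)) →
    Ent C (fun p => F (p.1, p.2.2)) → Ent C (fun p => E' (p.2.1, p.2.2))
  total : ∀ ψ : X → Sst, Ent F (fun p => ψ p.1) → Ent (fun x => E (x, x)) ψ

/-- `H` represents the composite `∃ y, F(x, y) ∧ G(y, z)`. -/
def IsComp {X Y Z : Type} (F : X × Y → Sst) (G : Y × Z → Sst) (H : X × Z → Sst) : Prop :=
  ∀ ψ : X × Z → Sst, Ent H ψ ↔ ∀ K : X × Y × Z → Sst, Ent K (fun p => F (p.1, p.2.1)) →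
    Ent K (fun p => G (p.2.1, p.2.2)) → Ent K (fun p => ψ (p.1, p.2.2))

theorem computable_one : Computable₂ (fun _ _ : ℕ => 1) := Computable.const 1

theorem computable_left : Computable₂ (fun u _ : ℕ => u) := Computable.fst

/-- The constant objects functor on objects: the equality predicate is the image of `⊤` along the
diagonal. -/
def nabla (X : Type) : X × X → Sst := fun p => eps (p.1 = p.2)

theorem isObj_nabla (X : Type) : IsObj (nabla X) where
  symm := Ent.comb (r := fun _ => 0) computable_one (Ent.refl _) (Ent.refl _)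
    fun _ h _ => ⟨h.symm, rfl⟩
  trans _ h1 h2 := Ent.comb (r := fun _ => 0) computable_one h1 h2
    fun _ h h' => ⟨h.trans h', rfl⟩

/-- The constant objects functor on morphisms: the graph. -/
def nablaMap {X Y : Type} (f : X → Y) : X × Y → Sst := fun p => eps (f p.1 = p.2)

/-- `((N, E), z, s)` is a natural numbers object (`1 = ∇{*}` is terminal). -/
def IsNNO {N : Type} (E : N × N → Sst) (z : Unit × N → Sst) (s : N × N → Sst) : Prop :=
  IsObj E ∧ IsFun (nabla Unit) E z ∧ IsFun E E s ∧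
    ∀ (A : Type) (E' : A × A → Sst) (a : Unit × A → Sst) (t : A × A → Sst),
      IsObj E' → IsFun (nabla Unit) E' a → IsFun E' E' t →
      (∃ h : N × A → Sst, IsFun E E' h ∧ IsComp z h a ∧
        ∃ K, IsComp s h K ∧ IsComp h t K) ∧
      ∀ h h' : N × A → Sst,
        (IsFun E E' h ∧ IsComp z h a ∧ ∃ K, IsComp s h K ∧ IsComp h t K) →
        (IsFun E E' h' ∧ IsComp z h' a ∧ ∃ K, IsComp s h' K ∧ IsComp h' t K) → Eqv h h'

/-- The equality predicate of `∇X` is the image of `⊤` along the diagonal. -/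
theorem nabla_image (X : Type) : IsImage (X × X) {p | p.1 = p.2} (nabla X) :=
  isImage_eps _ _

/-- Graphs of functions are functional relations between constant objects. -/
theorem isFun_nablaMap {X Y : Type} (f : X → Y) : IsFun (nabla X) (nabla Y) (nablaMap f) where
  strict_left := Ent.comb (r := fun _ => 0) computable_one (Ent.refl _) (Ent.refl _)
    fun _ _ _ => ⟨rfl, rfl⟩
  strict_right := Ent.comb (r := fun _ => 0) computable_one (Ent.refl _) (Ent.refl _)
    fun _ _ _ => ⟨rfl, rfl⟩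
  ext C h1 h2 h3 := by
    have h4 : Ent C (fun p => wit (f p.1.2 = p.2.1) 0) :=
      Ent.comb computable_one h1 h2 fun p h h' =>
        ⟨by rw [← show p.1.1 = p.1.2 from h']; exact h, rfl⟩
    exact Ent.comb (r := fun _ => 0) computable_one h4 h3 fun p h h' => ⟨h.trans h', rfl⟩
  sv C h1 h2 := Ent.comb (r := fun _ => 0) computable_one h1 h2
    fun p h h' => ⟨h.symm.trans h', rfl⟩
  total ψ h := by
    have h1 := h.reindex (fun x : X => (x, f x))
    refine Ent.trans ?_ h1
    exact Ent.comb (r := fun _ => 0) computable_one (Ent.refl _) (Ent.refl _)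
      fun _ _ _ => ⟨rfl, rfl⟩

/-- The constant objects functor preserves composition. -/
theorem isComp_nablaMap {X Y Z : Type} (f : X → Y) (g : Y → Z) :
    IsComp (nablaMap f) (nablaMap g) (nablaMap (g ∘ f)) := by
  intro ψ
  constructor
  · intro h K h1 h2
    have h3 : Ent K (fun p => nablaMap (g ∘ f) (p.1, p.2.2)) :=
      Ent.comb (r := fun _ => 0) computable_one h1 h2 fun p h h' =>
        ⟨show g (f p.1) = p.2.2 by rw [show f p.1 = p.2.1 from h]; exact h', rfl⟩
    exact h3.trans (h.reindex (fun p : X × Y × Z => (p.1, p.2.2)))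
  · intro h
    have h1 := h (fun p => eps (f p.1 = p.2.1 ∧ g p.2.1 = p.2.2))
      (Ent.comb (r := fun _ => 0) computable_one (Ent.refl _) (Ent.refl _)
        fun _ h _ => ⟨h.1, rfl⟩)
      (Ent.comb (r := fun _ => 0) computable_one (Ent.refl _) (Ent.refl _)
        fun _ h _ => ⟨h.2, rfl⟩)
    have h2 := h1.reindex (fun p : X × Z => (p.1, f p.1, p.2))
    refine Ent.trans ?_ h2
    exact Ent.comb (r := fun _ => 0) computable_one (Ent.refl _) (Ent.refl _)
      fun _ h _ => ⟨⟨rfl, h⟩, rfl⟩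

/-- The object of standard natural numbers. -/
def st : ℕ × ℕ → Sst := fun p => wit (p.1 = p.2) p.1

theorem isObj_st : IsObj st where
  symm := Ent.comb computable_left (Ent.refl _) (Ent.refl _)
    fun p h _ => ⟨h.symm, by rw [show p.1 = p.2 from h]⟩
  trans _ h1 h2 := Ent.comb computable_left h1 h2 fun _ h h' => ⟨h.trans h', rfl⟩

/-- The successor of `st`. -/
def stS : ℕ × ℕ → Sst := fun p => wit (p.1 + 1 = p.2) p.1

theorem computable_two_mul : Computable₂ (fun u _ : ℕ => 2 * u) :=
  (Primrec.nat_mul.comp (Primrec.const 2) Primrec.fst).to_comp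

/-- Check of values. -/
def chk (u v : ℕ) : ℕ := if u = v then u else 0

theorem isFun_stS : IsFun st st stS where
  strict_left := Ent.comb computable_left (Ent.refl _) (Ent.refl _)
    fun _ _ _ => ⟨rfl, rfl⟩
  strict_right := Ent.comb computable_two_mul (Ent.refl _) (Ent.refl _)
    fun p h _ => ⟨rfl, by rw [← show p.1 + 1 = p.2 from h, pow_succ, mul_comm]⟩
  ext C h1 h2 h3 := by
    have h4 : Ent C (fun p => wit (p.1.2 + 1 = p.2.1) p.1.2) :=
      Ent.comb computable_left h1 h2 fun p h h' =>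
        ⟨by rw [← show p.1.1 = p.1.2 from h']; exact h, by rw [show p.1.1 = p.1.2 from h']⟩
    exact Ent.comb computable_left h4 h3 fun p h h' => ⟨h.trans h', rfl⟩
  sv C h1 h2 := Ent.comb computable_two_mul h1 h2
    fun p h h' => ⟨h.symm.trans h', by rw [← show p.1 + 1 = p.2.1 from h, pow_succ, mul_comm]⟩
  total ψ h := by
    have h1 := h.reindex (fun x : ℕ => (x, x + 1))
    refine Ent.trans ?_ h1
    exact Ent.comb computable_left (Ent.refl _) (Ent.refl _) fun _ _ _ => ⟨rfl, rfl⟩

/-- The zero of `st`. -/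
theorem isFun_zero : IsFun (nabla Unit) st (nablaMap (fun _ => 0)) where
  strict_left := Ent.comb (r := fun _ => 0) computable_one (Ent.refl _) (Ent.refl _)
    fun _ _ _ => ⟨rfl, rfl⟩
  strict_right := Ent.comb computable_one (Ent.refl _) (Ent.refl _)
    fun p h _ => ⟨rfl, by rw [← show 0 = p.2 from h]; rfl⟩
  ext C h1 h2 h3 := Ent.comb (r := fun _ => 0) computable_one h1 h3 fun p h h' =>
    ⟨h.trans h', rfl⟩
  sv C h1 h2 := Ent.comb computable_one h1 h2
    fun p h h' => ⟨h.symm.trans h', by rw [← show 0 = p.2.1 from h]; rfl⟩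
  total ψ h := by
    have h1 := h.reindex (fun x : Unit => (x, 0))
    refine Ent.trans ?_ h1
    exact Ent.comb (r := fun _ => 0) computable_one (Ent.refl _) (Ent.refl _)
      fun _ _ _ => ⟨rfl, rfl⟩

theorem not_nno : ¬ IsNNO (nabla ℕ) (nablaMap (fun _ : Unit => 0)) (nablaMap Nat.succ) := by
  rintro ⟨-, -, -, hN⟩
  obtain ⟨⟨h, hf, hz, K, hK1, hK2⟩, -⟩ := hN ℕ st (nablaMap (fun _ => 0)) stS isObj_st isFun_zero
    isFun_stS
  obtain ⟨-, huniq⟩ := hN ℕ (nabla ℕ) (nablaMap (fun _ => 0)) (nablaMap Nat.succ)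
    (isObj_nabla ℕ) (isFun_nablaMap _) (isFun_nablaMap _)
  have hstr : Ent h (fun p => wit True p.2) :=
    hf.strict_right.trans (Ent.comb computable_left (Ent.refl _) (Ent.refl _)
      fun _ _ _ => ⟨trivial, rfl⟩)
  have hh : IsFun (nabla ℕ) (nabla ℕ) h := by
    refine ⟨hf.strict_left, ?_, fun C h1 h2 h3 => ?_, fun C h1 h2 => ?_, hf.total⟩
    · exact hstr.trans (Ent.comb (r := fun _ => 0) computable_one (Ent.refl _) (Ent.refl _)
        fun _ _ _ => ⟨rfl, rfl⟩)
    · refine hf.ext C h1 h2 ?_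
      have h4 : Ent C (fun p => wit True p.2.1) :=
        h1.trans (hstr.reindex (fun p : (ℕ × ℕ) × (ℕ × ℕ) => (p.1.1, p.2.1)))
      exact Ent.comb computable_left h4 h3 fun p _ h' => ⟨h', rfl⟩
    · exact (hf.sv C h1 h2).trans (Ent.comb (r := fun _ => 0) computable_one (Ent.refl _)
        (Ent.refl _) fun p h _ => ⟨h, rfl⟩)
  have hK3 : IsComp h (nablaMap Nat.succ) K := by
    intro ψ
    rw [hK2 ψ]
    refine forall_congr' fun C => forall_congr' fun h1 => imp_congr_left ?_
    constructor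
    · intro h2
      exact Ent.comb (r := fun _ => 0) computable_one h2 h2 fun p h _ => ⟨h, rfl⟩
    · intro h2
      have h4 : Ent C (fun p => wit True p.2.1) :=
        h1.trans (hstr.reindex (fun p : ℕ × ℕ × ℕ => (p.1, p.2.1)))
      exact Ent.comb computable_left h4 h2 fun p _ h' => ⟨h', rfl⟩
  have hE := huniq (nablaMap id) h
    ⟨isFun_nablaMap _, isComp_nablaMap _ _, _, isComp_nablaMap _ _, isComp_nablaMap _ _⟩
    ⟨hh, hz, K, hK1, hK3⟩
  have h1 : Ent (nablaMap (id : ℕ → ℕ)) (fun p => wit True p.2) := hE.1.trans hstr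
  obtain ⟨f, g, -, -, r⟩ := (h1.reindex (fun n : ℕ => (n, n))).real
  have hmem : ∀ n : ℕ, 1 ∈ star (nablaMap (id : ℕ → ℕ) (n, n)).pos := fun n =>
    mem_star_wit.2 (Or.inr ⟨rfl, rfl⟩)
  have key : ∀ n : ℕ, ∃ u ∈ f 1, u = 2 ^ n := by
    intro n
    obtain ⟨u, hu, -, k⟩ := r n 1 (hmem n)
    obtain ⟨w, -, hw, k2⟩ := k 0 rfl
    obtain ⟨-, h3, -⟩ := k2 fun c hc => ⟨rfl, rfl, hw c hc⟩
    exact ⟨u, hu, h3⟩
  obtain ⟨u, hu, hu'⟩ := key 0
  obtain ⟨v, hv, hv'⟩ := key 1
  have := Part.mem_unique hu hv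
  rw [hu', hv'] at this
  norm_num at this

end Q204.DS
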