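import Pool.Agent.Q204.DS.Real

set_option autoImplicit false

/-!
# Special predicates of the `D_st` tripos
-/

namespace Q204.DS

theorem Sst.ext' {p q : Sst} (h1 : p.pos = q.pos) (h2 : p.neg = q.neg)
    (h3 : ∀ a b, p.rel a b ↔ q.rel a b) : p = q := by
  cases p
  cases q
  simp only at h1 h2 h3
  subst h1 h2
  congr
  funext a b
  exact propext (h3 a b)

/-- Truth, `(∅, ∅, ∅)`. -/
def top : Sst := ⟨∅, ∅, fun _ _ => False, fun _ _ h => h.elim, fun _ _ _ _ _ h => h⟩

/-- Falsity, `(∅, {0}, ∅)`. -/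
def bot : Sst := ⟨∅, {0}, fun _ _ => False, fun _ _ h => h.elim, fun _ _ _ _ _ h => h⟩

theorem eq_zero_of_star {a : ℕ} (h : ∀ k, a.testBit k = true → False) : a = 0 := by
  apply Nat.eq_of_testBit_eq
  intro k
  rw [Nat.zero_testBit]
  rcases hb : a.testBit k with _ | _
  · rfl
  · exact (h k hb).elim

theorem zero_mem_star (X : Set ℕ) : 0 ∈ star X := fun k hk => by
  rw [Nat.zero_testBit] at hk
  exact absurd hk (by simp)

theorem testBit_pow {f k : ℕ} (h : (2 ^ f).testBit k = true) : k = f := by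
  rw [Nat.testBit_two_pow] at h
  have : f = k := by simpa using h
  exact this.symm

theorem testBit_pow_self (f : ℕ) : (2 ^ f).testBit f = true := by
  rw [Nat.testBit_two_pow]
  simp

theorem testBit_one {k : ℕ} (h : (1 : ℕ).testBit k = true) : k = 0 :=
  testBit_pow (f := 0) (by simpa using h)

theorem testBit_one_zero : (1 : ℕ).testBit 0 = true := testBit_pow_self 0

/-- `X = {f}` if `P` and `∅` otherwise; `Y = {0}`; `R(a, 0)` iff `f ∈ a`. -/
def wit (P : Prop) (f : ℕ) : Sst where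
  pos := {k | P ∧ k = f}
  neg := {0}
  rel a b := P ∧ a = 2 ^ f ∧ b = 0
  sub := by
    rintro a b ⟨hP, rfl, rfl⟩
    exact ⟨fun k hk => ⟨hP, testBit_pow hk⟩, rfl⟩
  up := by
    rintro a a' b ha' hsub ⟨hP, rfl, rfl⟩
    refine ⟨hP, ?_, rfl⟩
    apply Nat.eq_of_testBit_eq
    intro k
    rcases h1 : a'.testBit k with _ | _
    · rcases h2 : (2 ^ f).testBit k with _ | _
      · exact h2.symm
      · rw [hsub k h2] at h1
        exact absurd h1 (by simp)
    · obtain ⟨-, h3⟩ := ha' k h1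
      have h3 : k = f := h3
      rw [h3, testBit_pow_self]

theorem mem_star_wit {P : Prop} {f a : ℕ} : a ∈ star (wit P f).pos ↔ a = 0 ∨ (P ∧ a = 2 ^ f) := by
  constructor
  · intro h
    by_cases h0 : ∃ k, a.testBit k = true
    · obtain ⟨k, hk⟩ := h0
      right
      obtain ⟨hP, h1⟩ := h k hk
      have h1 : k = f := h1
      refine ⟨hP, ?_⟩
      apply Nat.eq_of_testBit_eq
      intro j
      rcases h2 : a.testBit j with _ | _
      · rcases h3 : (2 ^ f).testBit j with _ | _
        · exact h3.symm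
        · have := testBit_pow h3
          rw [this, ← h1, hk] at h2
          exact absurd h2 (by simp)
      · obtain ⟨-, h3⟩ := h j h2
        have h3 : j = f := h3
        rw [h3, testBit_pow_self]
    · left
      exact eq_zero_of_star fun k hk => h0 ⟨k, hk⟩
  · rintro (rfl | ⟨hP, rfl⟩)
    · exact zero_mem_star _
    · exact fun k hk => ⟨hP, testBit_pow hk⟩

/-- The truth value of `P` in the image of the constant objects functor. -/
def eps (P : Prop) : Sst := wit P 0

/-- `⊤` if `P` holds and `⊥` otherwise. -/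
def chi (P : Prop) : Sst :=
  ⟨∅, {k | k = 0 ∧ ¬ P}, fun _ _ => False, fun _ _ h => h.elim, fun _ _ _ _ _ h => h⟩

theorem chi_true {P : Prop} (h : P) : chi P = top := by
  refine Sst.ext' rfl ?_ fun _ _ => Iff.rfl
  ext k
  show (k = 0 ∧ ¬ P) ↔ False
  simp [h]

theorem chi_false {P : Prop} (h : ¬ P) : chi P = bot := by
  refine Sst.ext' rfl ?_ fun _ _ => Iff.rfl
  ext k
  show (k = 0 ∧ ¬ P) ↔ k = 0
  simp [h]

/-- The join of `eps P` and `chi ¬P`. -/
def dd (P : Prop) : Sst where
  pos := {k | P ∧ k = 0}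
  neg := {k | P ∧ k = 0}
  rel a b := P ∧ a = 1 ∧ b = 0
  sub := by
    rintro a b ⟨hP, rfl, rfl⟩
    exact ⟨fun k hk => ⟨hP, testBit_one hk⟩, hP, rfl⟩
  up := by
    rintro a a' b ha' hsub ⟨hP, rfl, rfl⟩
    exact (wit P 0).up 1 a' 0 ha' hsub ⟨hP, rfl, rfl⟩

theorem mem_star_dd {P : Prop} {a : ℕ} : a ∈ star (dd P).pos ↔ a = 0 ∨ (P ∧ a = 1) :=
  mem_star_wit (f := 0)

section
variable {I : Type}

theorem computable_pow2 : Computable (fun n : ℕ => 2 ^ n) :=
  (primrec_pow.comp (Primrec.const 2) Primrec.id).to_comp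

/-- Combination of two realizers of simple predicates. -/
theorem Ent.comb {C : I → Sst} {P Q R : I → Prop} {f g r : I → ℕ} {H : ℕ → ℕ → ℕ}
    (hH : Computable₂ H) (h1 : Ent C (fun i => wit (P i) (f i)))
    (h2 : Ent C (fun i => wit (Q i) (g i)))
    (h : ∀ i, P i → Q i → R i ∧ H (2 ^ f i) (2 ^ g i) = 2 ^ r i) :
    Ent C (fun i => wit (R i) (r i)) := by
  obtain ⟨f1, g1, hf1, hg1, r1⟩ := h1.real
  obtain ⟨f2, g2, hf2, hg2, r2⟩ := h2.real
  set T : ℕ → ℕ → ℕ := fun u v => bif (u == 0 || v == 0) then 0 else H u v with hT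
  have hTp : ∀ x y : ℕ, T (2 ^ x) (2 ^ y) = H (2 ^ x) (2 ^ y) := by
    intro x y
    have e : ∀ z : ℕ, ((2 : ℕ) ^ z == 0) = false := fun z => beq_false_of_ne (by positivity)
    rw [hT]
    simp only [e, Bool.or_false, cond_false]
  have hTc : Computable₂ T := by
    have e1 : Computable (fun p : ℕ × ℕ => (p.1 == 0 || p.2 == 0)) := by
      have : PrimrecPred (fun p : ℕ × ℕ => p.1 = 0 ∨ p.2 = 0) :=
        PrimrecPred.or (PrimrecRel.comp Primrec.eq Primrec.fst (Primrec.const 0))
          (PrimrecRel.comp Primrec.eq Primrec.snd (Primrec.const 0))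
      obtain ⟨hD, h⟩ := this
      refine h.to_comp.of_eq fun p => ?_
      rcases p with ⟨u, v⟩
      by_cases hu : u = 0 <;> by_cases hv : v = 0 <;> simp [hu, hv]
    exact Computable.cond e1 (Computable.const 0) hH
  have hF : Partrec (fun a => (f1 a).bind fun u => (f2 a).map fun v => T u v) := by
    have c1 : Partrec (fun p : ℕ × ℕ => f2 p.1) := Partrec.comp hf2 Computable.fst
    have c2 : Computable₂ (fun (p : ℕ × ℕ) (v : ℕ) => T p.2 v) :=
      hTc.comp (Computable.snd.comp Computable.fst) Computable.snd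
    exact Partrec.bind hf1 (Partrec.map c1 c2)
  have hG : Partrec (fun p : ℕ × ℕ => (g1 (p.1, 0)).bind fun u => (g2 (p.1, 0)).map fun v =>
      un u v) := by
    have c0 : Computable (fun p : ℕ × ℕ => (p.1, 0)) :=
      Computable.pair Computable.fst (Computable.const 0)
    have c1 : Partrec (fun p : ℕ × ℕ => g1 (p.1, 0)) := Partrec.comp hg1 c0
    have c0' : Computable (fun p : (ℕ × ℕ) × ℕ => (p.1.1, 0)) :=
      Computable.pair (Computable.fst.comp Computable.fst) (Computable.const 0)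
    have c2 : Partrec (fun p : (ℕ × ℕ) × ℕ => g2 (p.1.1, 0)) := Partrec.comp hg2 c0'
    have c3 : Computable₂ (fun (p : (ℕ × ℕ) × ℕ) (v : ℕ) => un p.2 v) :=
      computable_un.comp (Computable.snd.comp Computable.fst) Computable.snd
    exact Partrec.bind c1 (Partrec.map c2 c3)
  refine ent_of hF hG fun i a ha => ?_
  obtain ⟨u, hu, hu', k1⟩ := r1 i a ha
  obtain ⟨v, hv, hv', k2⟩ := r2 i a ha
  obtain ⟨w1, hw1, hw1', k1'⟩ := k1 0 rfl
  obtain ⟨w2, hw2, hw2', k2'⟩ := k2 0 rfl
  rw [mem_star_wit] at hu' hv'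
  refine ⟨T u v, Part.mem_bind_iff.2 ⟨u, hu, Part.mem_map _ hv⟩, ?_, fun b hb => ?_⟩
  · rw [mem_star_wit]
    rcases hu' with rfl | ⟨hP, rfl⟩
    · left
      simp [hT]
    · rcases hv' with rfl | ⟨hQ, rfl⟩
      · left
        simp [hT]
      · right
        obtain ⟨h3, h4⟩ := h i hP hQ
        exact ⟨h3, by rw [hTp, h4]⟩
  · have hb : b = 0 := hb
    subst hb
    refine ⟨un w1 w2, Part.mem_bind_iff.2 ⟨w1, hw1, Part.mem_map _ hw2⟩, ?_, fun hc => ?_⟩
    · intro k hk
      rw [testBit_un, Bool.or_eq_true] at hk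
      rcases hk with hk | hk
      · exact hw1' k hk
      · exact hw2' k hk
    · obtain ⟨hP, h3, -⟩ := k1' fun c hc' => hc c (by rw [testBit_un, hc']; simp)
      obtain ⟨hQ, h4, -⟩ := k2' fun c hc' => hc c (by rw [testBit_un, hc']; simp)
      obtain ⟨h5, h6⟩ := h i hP hQ
      refine ⟨h5, ?_, rfl⟩
      rw [h3, h4, hTp, h6]

/-- Everything follows from `⊥`. -/
theorem bot_ent (ψ : I → Sst) : Ent (fun _ => bot) ψ := by
  refine ent_of (f := fun _ => Part.some 0) (g := fun _ => Part.some 1)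
    (Computable.const 0).partrec (Computable.const 1).partrec fun i a ha => ?_
  exact ⟨0, Part.mem_some _, zero_mem_star _, fun b _ => ⟨1, Part.mem_some _,
    fun k hk => testBit_one hk, fun hc => (hc 0 testBit_one_zero).elim⟩⟩

theorem not_top_bot : ¬ Ent (fun _ : Unit => top) (fun _ => bot) := by
  intro h
  obtain ⟨f, g, -, -, hr⟩ := h.real
  obtain ⟨u, -, -, k⟩ := hr () 0 (zero_mem_star _)
  obtain ⟨w, -, hw, k2⟩ := k 0 rfl
  exact k2 fun c hc => (hw c hc).elim

/-- `eps p` and `chi q` are incompatible if `p` and `q` are. -/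
theorem incompat {C : I → Sst} {p q : I → Prop} (h1 : Ent C (fun i => eps (p i)))
    (h2 : Ent C (fun i => chi (q i))) (h : ∀ i, p i → ¬ q i) : Ent C (fun _ => bot) := by
  obtain ⟨f1, g1, hf1, hg1, r1⟩ := h1.real
  obtain ⟨f2, g2, hf2, hg2, r2⟩ := h2.real
  have hG : Partrec (fun x : ℕ × ℕ => (f1 x.1).bind fun u =>
      bif u == 0 then g1 (x.1, 0) else g2 (x.1, 0)) := by
    have c0 : Computable (fun p : (ℕ × ℕ) × ℕ => (p.1.1, 0)) :=
      Computable.pair (Computable.fst.comp Computable.fst) (Computable.const 0)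
    have c1 : Partrec (fun p : (ℕ × ℕ) × ℕ => g1 (p.1.1, 0)) := Partrec.comp hg1 c0
    have c2 : Partrec (fun p : (ℕ × ℕ) × ℕ => g2 (p.1.1, 0)) := Partrec.comp hg2 c0
    have c3 : Computable (fun p : (ℕ × ℕ) × ℕ => p.2 == 0) := by
      have : PrimrecPred (fun p : (ℕ × ℕ) × ℕ => p.2 = 0) :=
        PrimrecRel.comp Primrec.eq Primrec.snd (Primrec.const 0)
      obtain ⟨hD, h⟩ := this
      refine h.to_comp.of_eq fun p => ?_
      by_cases hp : p.2 = 0 <;> simp [hp]
    exact Partrec.bind (Partrec.comp hf1 Computable.fst) (Partrec.cond c3 c1 c2)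
  refine ent_of (f := fun _ => Part.some 0) (Computable.const 0).partrec hG fun i a ha => ?_
  refine ⟨0, Part.mem_some _, zero_mem_star _, fun b _ => ?_⟩
  obtain ⟨u, hu, hu', k1⟩ := r1 i a ha
  rcases mem_star_wit.1 hu' with rfl | ⟨hp, rfl⟩
  · obtain ⟨w, hw, hw', k1'⟩ := k1 0 rfl
    refine ⟨w, Part.mem_bind_iff.2 ⟨0, hu, hw⟩, hw', fun hc => ?_⟩
    obtain ⟨-, h3, -⟩ := k1' hc
    exact absurd h3 (by norm_num)
  · obtain ⟨v, -, -, k2⟩ := r2 i a ha
    obtain ⟨w, hw, hw', k2'⟩ := k2 0 ⟨rfl, h i hp⟩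
    exact ⟨w, Part.mem_bind_iff.2 ⟨2 ^ 0, hu, hw⟩, hw', fun hc => (k2' hc).elim⟩

theorem testBit_half (a k : ℕ) : (a / 2).testBit k = a.testBit (k + 1) :=
  (Nat.testBit_succ a k).symm

theorem testBit_zero_iff (a : ℕ) : a.testBit 0 = true ↔ a % 2 = 1 := by
  rw [Nat.testBit_zero]
  simp

/-- The meet of `ψ` and `eps A`. -/
def meet1 (ψ : Sst) (A : Prop) : Sst where
  pos := {k | (k = 0 ∧ A) ∨ ∃ m, k = m + 1 ∧ m ∈ ψ.pos}
  neg := {k | k = 0 ∨ ∃ m, k = m + 1 ∧ m ∈ ψ.neg}
  rel a b := a ∈ star {k | (k = 0 ∧ A) ∨ ∃ m, k = m + 1 ∧ m ∈ ψ.pos} ∧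
    ((b = 0 ∧ A ∧ a.testBit 0 = true) ∨ ∃ m, b = m + 1 ∧ ψ.rel (a / 2) m)
  sub := by
    rintro a b ⟨h1, h2⟩
    refine ⟨h1, ?_⟩
    rcases h2 with ⟨h2, -⟩ | ⟨m, h2, h3⟩
    · exact Or.inl h2
    · exact Or.inr ⟨m, h2, (ψ.sub _ _ h3).2⟩
  up := by
    rintro a a' b ha' hsub ⟨h1, h2⟩
    refine ⟨ha', ?_⟩
    rcases h2 with ⟨h2, h3, h4⟩ | ⟨m, h2, h3⟩
    · exact Or.inl ⟨h2, h3, hsub 0 h4⟩
    · refine Or.inr ⟨m, h2, ψ.up (a / 2) (a' / 2) m ?_ ?_ h3⟩
      · intro k hk
        rw [testBit_half] at hk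
        rcases ha' (k + 1) hk with ⟨h, -⟩ | ⟨m', h, h'⟩
        · exact absurd h (by omega)
        · have : k = m' := by omega
          rwa [this]
      · intro k hk
        rw [testBit_half] at hk ⊢
        exact hsub _ hk

/-- The meet of `ψ` and `chi A`. -/
def meet2 (ψ : Sst) (A : Prop) : Sst where
  pos := ψ.pos
  neg := {k | (k = 0 ∧ ¬ A) ∨ ∃ m, k = m + 1 ∧ m ∈ ψ.neg}
  rel a b := ∃ m, b = m + 1 ∧ ψ.rel a m
  sub := by
    rintro a b ⟨m, h1, h2⟩
    exact ⟨(ψ.sub _ _ h2).1, Or.inr ⟨m, h1, (ψ.sub _ _ h2).2⟩⟩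
  up := by
    rintro a a' b ha' hsub ⟨m, h1, h2⟩
    exact ⟨m, h1, ψ.up a a' m ha' hsub h2⟩

theorem computable_shift : Computable (fun p : ℕ × ℕ => 2 ^ (p.2 + 1)) :=
  (primrec_pow.comp (Primrec.const 2) (Primrec.succ.comp Primrec.snd)).to_comp

theorem computable_half : Computable (fun a : ℕ => a / 2) :=
  (Primrec.nat_div.comp Primrec.id (Primrec.const 2)).to_comp

theorem computable_odd : Computable (fun a : ℕ => a % 2) :=
  (Primrec.nat_mod.comp Primrec.id (Primrec.const 2)).to_comp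

theorem meet1_left (ψ : I → Sst) (A : I → Prop) : Ent (fun i => meet1 (ψ i) (A i)) ψ := by
  refine ent_of (f := fun a => Part.some (a / 2)) (g := fun p => Part.some (2 ^ (p.2 + 1)))
    computable_half.partrec computable_shift.partrec fun i a ha => ?_
  refine ⟨a / 2, Part.mem_some _, fun k hk => ?_, fun b hb => ⟨_, Part.mem_some _, ?_, ?_⟩⟩
  · rw [testBit_half] at hk
    rcases ha _ hk with ⟨h, -⟩ | ⟨m, h, h'⟩
    · exact absurd h (by omega)
    · have : k = m := by omega
      rwa [this]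
  · intro k hk
    exact Or.inr ⟨b, testBit_pow hk, hb⟩
  · intro hc
    obtain ⟨-, h | ⟨m, h, h'⟩⟩ := hc (b + 1) (testBit_pow_self _)
    · exact absurd h.1 (by omega)
    · have : b = m := by omega
      rwa [this]

theorem meet1_right (ψ : I → Sst) (A : I → Prop) :
    Ent (fun i => meet1 (ψ i) (A i)) (fun i => eps (A i)) := by
  refine ent_of (f := fun a => Part.some (a % 2)) (g := fun p => Part.some 1)
    computable_odd.partrec (Computable.const 1).partrec fun i a ha => ?_
  refine ⟨a % 2, Part.mem_some _, ?_, fun b hb => ⟨1, Part.mem_some _, ?_, ?_⟩⟩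
  · rw [show eps (A i) = wit (A i) 0 from rfl, mem_star_wit]
    rcases Nat.mod_two_eq_zero_or_one a with h | h
    · exact Or.inl h
    · right
      rcases ha 0 ((testBit_zero_iff a).2 h) with ⟨-, h2⟩ | ⟨m, h2, -⟩
      · exact ⟨h2, h⟩
      · exact absurd h2 (by omega)
  · intro k hk
    exact Or.inl (testBit_one hk)
  · intro hc
    have hb : b = 0 := hb
    obtain ⟨-, ⟨-, h1, h2⟩ | ⟨m, h2, -⟩⟩ := hc 0 testBit_one_zero
    · exact ⟨h1, (testBit_zero_iff a).1 h2, hb⟩
    · exact absurd h2 (by omega)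

theorem meet2_left (ψ : I → Sst) (A : I → Prop) : Ent (fun i => meet2 (ψ i) (A i)) ψ := by
  refine ent_of (f := fun a => Part.some a) (g := fun p => Part.some (2 ^ (p.2 + 1)))
    Computable.id.partrec computable_shift.partrec fun i a ha => ?_
  refine ⟨a, Part.mem_some _, ha, fun b hb => ⟨_, Part.mem_some _, ?_, ?_⟩⟩
  · intro k hk
    exact Or.inr ⟨b, testBit_pow hk, hb⟩
  · intro hc
    obtain ⟨m, h, h'⟩ := hc (b + 1) (testBit_pow_self _)
    have : b = m := by omega
    rwa [this]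

theorem meet2_right (ψ : I → Sst) (A : I → Prop) :
    Ent (fun i => meet2 (ψ i) (A i)) (fun i => chi (A i)) := by
  refine ent_of (f := fun _ => Part.some 0) (g := fun p => Part.some 1)
    (Computable.const 0).partrec (Computable.const 1).partrec fun i a ha => ?_
  refine ⟨0, Part.mem_some _, zero_mem_star _, fun b hb => ⟨1, Part.mem_some _, ?_, ?_⟩⟩
  · intro k hk
    exact Or.inl ⟨testBit_one hk, hb.2⟩
  · intro hc
    obtain ⟨m, h, -⟩ := hc 0 testBit_one_zero
    exact absurd h (by omega)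

/-- `chi ¬A` is the negation of `eps A`. -/
theorem neg_eps (A : I → Prop) (ψ : I → Sst) : Ent ψ (fun i => chi (¬ A i)) ↔
    ∀ C : I → Sst, Ent C ψ → Ent C (fun i => eps (A i)) → Ent C (fun _ => bot) := by
  constructor
  · intro h C h1 h2
    exact incompat h2 (h1.trans h) fun i hi => not_not.2 hi
  · intro H
    obtain ⟨f, g, hf, hg, r⟩ := (H _ (meet1_left ψ A) (meet1_right ψ A)).real
    have hG : Partrec (fun p : ℕ × ℕ => (g (2 * p.1 + 1, 0)).map fun w => w / 2) := by
      have c0 : Computable (fun p : ℕ × ℕ => (2 * p.1 + 1, 0)) :=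
        (Primrec.pair (Primrec.succ.comp (Primrec.nat_mul.comp (Primrec.const 2) Primrec.fst))
          (Primrec.const 0)).to_comp
      exact Partrec.map (Partrec.comp hg c0) (computable_half.comp Computable.snd)
    refine ent_of (f := fun _ => Part.some 0) (Computable.const 0).partrec hG fun i a ha => ?_
    refine ⟨0, Part.mem_some _, zero_mem_star _, fun b hb => ?_⟩
    have hA : A i := not_not.1 hb.2
    obtain ⟨u, -, -, k⟩ := r i (2 * a + 1) (by
      intro k hk
      cases k with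
      | zero => exact Or.inl ⟨rfl, hA⟩
      | succ k =>
        rw [← testBit_half] at hk
        have e : (2 * a + 1) / 2 = a := by omega
        rw [e] at hk
        exact Or.inr ⟨k, rfl, ha k hk⟩)
    obtain ⟨w, hw, hw', k2⟩ := k 0 rfl
    refine ⟨w / 2, Part.mem_map _ hw, ?_, fun hc => ?_⟩
    · intro k hk
      rw [testBit_half] at hk
      rcases hw' _ hk with h | ⟨m, h, h'⟩
      · exact absurd h (by omega)
      · have : k = m := by omega
        rwa [this]
    · exfalso
      refine k2 fun c hc' => ⟨?_, ?_⟩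
      · intro k hk
        cases k with
        | zero => exact Or.inl ⟨rfl, hA⟩
        | succ k =>
          rw [← testBit_half] at hk
          have e : (2 * a + 1) / 2 = a := by omega
          rw [e] at hk
          exact Or.inr ⟨k, rfl, ha k hk⟩
      · cases c with
        | zero =>
          left
          refine ⟨rfl, hA, ?_⟩
          rw [testBit_zero_iff]
          omega
        | succ c =>
          right
          have e : (2 * a + 1) / 2 = a := by omega
          refine ⟨c, rfl, ?_⟩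
          rw [e]
          exact hc c (by rw [testBit_half]; exact hc')

/-- `eps ¬A` is the negation of `chi A`. -/
theorem neg_chi (A : I → Prop) (ψ : I → Sst) : Ent ψ (fun i => eps (¬ A i)) ↔
    ∀ C : I → Sst, Ent C ψ → Ent C (fun i => chi (A i)) → Ent C (fun _ => bot) := by
  constructor
  · intro h C h1 h2
    exact incompat (h1.trans h) h2 fun i hi => hi
  · intro H
    obtain ⟨f, g, hf, hg, r⟩ := (H _ (meet2_left ψ A) (meet2_right ψ A)).real
    have c0 : Computable (fun a : ℕ => (a, 0)) := Computable.pair Computable.id (Computable.const 0)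
    have c1 : Computable (fun p : ℕ × ℕ => (p.1, 0)) :=
      Computable.pair Computable.fst (Computable.const 0)
    have hF : Partrec (fun a : ℕ => (g (a, 0)).map fun w => w % 2) :=
      Partrec.map (Partrec.comp hg c0) (computable_odd.comp Computable.snd)
    have hG : Partrec (fun p : ℕ × ℕ => (g (p.1, 0)).map fun w => w / 2) :=
      Partrec.map (Partrec.comp hg c1) (computable_half.comp Computable.snd)
    refine ent_of hF hG fun i a ha => ?_
    obtain ⟨u, -, -, k⟩ := r i a ha
    obtain ⟨w, hw, hw', k2⟩ := k 0 rfl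
    have hodd : w % 2 = 1 → ¬ A i := by
      intro h
      rcases hw' 0 ((testBit_zero_iff w).2 h) with ⟨-, h2⟩ | ⟨m, h2, -⟩
      · exact h2
      · exact absurd h2 (by omega)
    refine ⟨w % 2, Part.mem_map _ hw, ?_, fun b hb => ⟨w / 2, Part.mem_map _ hw, ?_, fun hc => ?_⟩⟩
    · rw [show eps (¬ A i) = wit (¬ A i) 0 from rfl, mem_star_wit]
      rcases Nat.mod_two_eq_zero_or_one w with h | h
      · exact Or.inl h
      · exact Or.inr ⟨hodd h, h⟩
    · intro k hk
      rw [testBit_half] at hk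
      rcases hw' _ hk with h | ⟨m, h, h'⟩
      · exact absurd h.1 (by omega)
      · have : k = m := by omega
        rwa [this]
    · have hb : b = 0 := hb
      have h1 : w % 2 = 1 := by
        by_contra hcon
        refine k2 fun c hc' => ?_
        cases c with
        | zero => exact absurd ((testBit_zero_iff w).1 hc') hcon
        | succ c => exact ⟨c, rfl, hc c (by rw [testBit_half]; exact hc')⟩
      exact ⟨hodd h1, h1, hb⟩

/-- `dd A` is the join of `eps A` and `chi ¬A`. -/
theorem dd_join (A : I → Prop) (ψ : I → Sst) : Ent (fun i => dd (A i)) ψ ↔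
    Ent (fun i => eps (A i)) ψ ∧ Ent (fun i => chi (¬ A i)) ψ := by
  constructor
  · intro h
    constructor
    · refine Ent.trans ?_ h
      refine ent_of (f := fun a => Part.some a) (g := fun p => Part.some 1)
        Computable.id.partrec (Computable.const 1).partrec fun i a ha => ?_
      refine ⟨a, Part.mem_some _, ha, fun b hb => ⟨1, Part.mem_some _, fun k hk => testBit_one hk,
        fun hc => ?_⟩⟩
      obtain ⟨h1, h2, -⟩ := hc 0 testBit_one_zero
      exact ⟨h1, h2, hb.2⟩
    · refine Ent.trans ?_ h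
      refine ent_of (f := fun _ => Part.some 0) (g := fun p => Part.some 1)
        (Computable.const 0).partrec (Computable.const 1).partrec fun i a ha => ?_
      exact ⟨0, Part.mem_some _, zero_mem_star _, fun b hb => ⟨1, Part.mem_some _,
        fun k hk => ⟨testBit_one hk, not_not.2 hb.1⟩, fun hc => (hc 0 testBit_one_zero).elim⟩⟩
  · rintro ⟨h1, h2⟩
    obtain ⟨f1, g1, hf1, hg1, r1⟩ := h1.real
    obtain ⟨f2, g2, hf2, hg2, r2⟩ := h2.real
    have c3 : Computable (fun a : ℕ => a == 0) := by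
      have : PrimrecPred (fun a : ℕ => a = 0) :=
        PrimrecRel.comp Primrec.eq Primrec.id (Primrec.const 0)
      obtain ⟨hD, h⟩ := this
      refine h.to_comp.of_eq fun p => ?_
      by_cases hp : p = 0 <;> simp [hp]
    have hF : Partrec (fun a : ℕ => bif a == 0 then f2 a else f1 a) := Partrec.cond c3 hf2 hf1
    have hG : Partrec (fun p : ℕ × ℕ => bif p.1 == 0 then g2 p else g1 p) :=
      Partrec.cond (c3.comp Computable.fst) hg2 hg1
    refine ent_of hF hG fun i a ha => ?_
    rcases mem_star_dd.1 ha with rfl | ⟨hA, rfl⟩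
    · obtain ⟨u, hu, hu', k⟩ := r2 i 0 (zero_mem_star _)
      refine ⟨u, hu, hu', fun b hb => ?_⟩
      obtain ⟨w, hw, hw', k2⟩ := k b hb
      refine ⟨w, hw, ?_, fun hc => k2 fun c hc' => ?_⟩
      · intro k hk
        obtain ⟨h3, h4⟩ := hw' k hk
        exact ⟨not_not.1 h4, h3⟩
      · obtain ⟨-, h3, -⟩ := hc c hc'
        exact absurd h3 (by norm_num)
    · obtain ⟨u, hu, hu', k⟩ := r1 i 1 (mem_star_wit.2 (Or.inr ⟨hA, rfl⟩))
      refine ⟨u, hu, hu', fun b hb => ?_⟩
      obtain ⟨w, hw, hw', k2⟩ := k b hb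
      refine ⟨w, hw, ?_, fun hc => k2 fun c hc' => ?_⟩
      · intro k hk
        exact ⟨hA, hw' k hk⟩
      · obtain ⟨h3, h4, h5⟩ := hc c hc'
        exact ⟨h3, h4, h5⟩

/-- The universal quantification of `dd Q` is `⊥` if `Q` is sometimes true and sometimes false. -/
theorem all_dd {M : Type} (Q : I → M → Prop) (h1 : ∀ i, ∃ m, Q i m) (h2 : ∀ i, ∃ m, ¬ Q i m)
    (ψ : I → Sst) : Ent ψ (fun _ => bot) ↔
      Ent (fun p : I × M => ψ p.1) (fun p : I × M => dd (Q p.1 p.2)) := by
  constructor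
  · intro h
    exact (h.reindex (fun p : I × M => p.1)).trans (bot_ent _)
  · intro h
    obtain ⟨f, g, hf, hg, r⟩ := h.real
    have c1 : Computable (fun p : ℕ × ℕ => (p.1, 0)) :=
      Computable.pair Computable.fst (Computable.const 0)
    refine ent_of (f := fun _ => Part.some 0) (g := fun p => g (p.1, 0))
      (Computable.const 0).partrec (Partrec.comp hg c1) fun i a ha => ?_
    refine ⟨0, Part.mem_some _, zero_mem_star _, fun b _ => ?_⟩
    obtain ⟨m, hm⟩ := h1 i
    obtain ⟨m', hm'⟩ := h2 i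
    obtain ⟨u, hu, hu', -⟩ := r (i, m') a ha
    have hu0 : u = 0 := eq_zero_of_star fun k hk => hm' (hu' k hk).1
    subst hu0
    obtain ⟨u, hu2, -, k⟩ := r (i, m) a ha
    have := Part.mem_unique hu hu2
    subst this
    obtain ⟨w, hw, hw', k2⟩ := k 0 ⟨hm, rfl⟩
    refine ⟨w, hw, hw', fun hc => ?_⟩
    obtain ⟨-, h3, -⟩ := k2 hc
    exact absurd h3 (by norm_num)

/-- `eps A` is the image of `⊤` along the inclusion of `A`. -/
theorem eps_image (A : Set I) (ψ : I → Sst) : Ent (fun i => eps (i ∈ A)) ψ ↔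
    Ent (fun _ : A => top) (fun i : A => ψ i) := by
  constructor
  · intro h
    refine Ent.trans ?_ (h.reindex (fun i : A => (i : I)))
    refine ent_of (f := fun _ => Part.some 1) (g := fun p => Part.some 0)
      (Computable.const 1).partrec (Computable.const 0).partrec fun i a ha => ?_
    exact ⟨1, Part.mem_some _, mem_star_wit.2 (Or.inr ⟨i.2, rfl⟩), fun b hb =>
      ⟨0, Part.mem_some _, zero_mem_star _, fun _ => ⟨i.2, rfl, hb⟩⟩⟩
  · intro h
    obtain ⟨f, g, hf, hg, r⟩ := h.real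
    have c3 : Computable (fun a : ℕ => a == 0) := by
      have : PrimrecPred (fun a : ℕ => a = 0) :=
        PrimrecRel.comp Primrec.eq Primrec.id (Primrec.const 0)
      obtain ⟨hD, h⟩ := this
      refine h.to_comp.of_eq fun p => ?_
      by_cases hp : p = 0 <;> simp [hp]
    have hF : Partrec (fun a : ℕ => bif a == 0 then Part.some 0 else f 0) :=
      Partrec.cond c3 (Computable.const 0).partrec (Partrec.comp hf (Computable.const 0))
    refine ent_of hF (g := fun _ => Part.some 1) (Computable.const 1).partrec fun i a ha => ?_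
    rcases mem_star_wit.1 ha with rfl | ⟨hA, rfl⟩
    · exact ⟨0, Part.mem_some _, zero_mem_star _, fun b _ => ⟨1, Part.mem_some _,
        fun k hk => testBit_one hk, fun hc => absurd (hc 0 testBit_one_zero).2.1 (by norm_num)⟩⟩
    · obtain ⟨u, hu, hu', k⟩ := r ⟨i, hA⟩ 0 (zero_mem_star _)
      refine ⟨u, hu, hu', fun b hb => ⟨1, Part.mem_some _, fun k hk => testBit_one hk,
        fun _ => ?_⟩⟩
      obtain ⟨w, -, hw', k2⟩ := k b hb
      exact k2 fun c hc => (hw' c hc).elim

end

end Q204.DS
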