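import Mathlib

set_option autoImplicit false

/-!
# The `D_st` tripos: predicates and entailment
-/

namespace Q204.DS

/-- Kleene application `n(m)`. -/
def app (n m : ℕ) : Part ℕ := (Denumerable.ofNat Nat.Partrec.Code n).eval m

/-- `X^*`: the set of codes of finite subsets of `X`; the code of a finite set `F` is
`∑_{k ∈ F} 2^k`, so that `k ∈ F` iff the `k`-th binary digit of the code is `1`. -/
def star (X : Set ℕ) : Set ℕ := {a | ∀ k, a.testBit k = true → k ∈ X}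

/-- The set `Σ_st` of triples `(X, Y, R)` with `R ⊆ X^* × Y` upward closed in the first
coordinate. -/
structure Sst where
  /-- The set `X`. -/
  pos : Set ℕ
  /-- The set `Y`. -/
  neg : Set ℕ
  /-- The relation `R`. -/
  rel : ℕ → ℕ → Prop
  sub : ∀ a b, rel a b → a ∈ star pos ∧ b ∈ neg
  up : ∀ a a' b, a' ∈ star pos → (∀ k, a.testBit k = true → a'.testBit k = true) → rel a b →
    rel a' b

/-- `φ ⊢_I ψ`. -/
def Ent {I : Type} (φ ψ : I → Sst) : Prop :=
  ∃ ep em : ℕ,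
    (∀ i, ∀ a ∈ star (φ i).pos, ∃ u ∈ app ep a, u ∈ star (ψ i).pos) ∧
    (∀ i, ∀ a ∈ star (φ i).pos, ∀ b ∈ (ψ i).neg,
      ∃ w ∈ app em (Nat.pair a b), w ∈ star (φ i).neg) ∧
    ∀ i, ∀ a ∈ star (φ i).pos, ∀ b ∈ (ψ i).neg, ∀ u ∈ app ep a, ∀ w ∈ app em (Nat.pair a b),
      (∀ c, w.testBit c = true → (φ i).rel a c) → (ψ i).rel u b

/-- Realizers as partial recursive functions. -/
def Rz {I : Type} (f : ℕ → Part ℕ) (g : ℕ × ℕ → Part ℕ) (φ ψ : I → Sst) : Prop :=
  ∀ i, ∀ a ∈ star (φ i).pos, ∃ u ∈ f a, u ∈ star (ψ i).pos ∧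
    ∀ b ∈ (ψ i).neg, ∃ w ∈ g (a, b), w ∈ star (φ i).neg ∧
      ((∀ c, w.testBit c = true → (φ i).rel a c) → (ψ i).rel u b)

theorem exists_app {f : ℕ → Part ℕ} (hf : Partrec f) : ∃ e, ∀ m, app e m = f m := by
  obtain ⟨c, hc⟩ := Nat.Partrec.Code.exists_code.1 (Partrec.nat_iff.1 hf)
  refine ⟨Encodable.encode c, fun m => ?_⟩
  unfold app
  rw [Denumerable.ofNat_encode, hc]

theorem partrec_app (e : ℕ) : Partrec (app e) :=
  Partrec.nat_iff.2 (Nat.Partrec.Code.exists_code.2 ⟨_, rfl⟩)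

theorem ent_of {I : Type} {φ ψ : I → Sst} {f : ℕ → Part ℕ} {g : ℕ × ℕ → Part ℕ} (hf : Partrec f)
    (hg : Partrec g) (h : Rz f g φ ψ) : Ent φ ψ := by
  obtain ⟨ep, hep⟩ := exists_app hf
  have hg' : Partrec (fun n : ℕ => g n.unpair) := hg.comp Computable.unpair
  obtain ⟨em, hem⟩ := exists_app hg'
  have hem' : ∀ a b, app em (Nat.pair a b) = g (a, b) := fun a b => by
    rw [hem, Nat.unpair_pair]
  refine ⟨ep, em, fun i a ha => ?_, fun i a ha b hb => ?_, fun i a ha b hb u hu w hw hc => ?_⟩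
  · obtain ⟨u, hu, hu', -⟩ := h i a ha
    exact ⟨u, by rw [hep]; exact hu, hu'⟩
  · obtain ⟨u, hu, hu', h2⟩ := h i a ha
    obtain ⟨w, hw, hw', -⟩ := h2 b hb
    exact ⟨w, by rw [hem']; exact hw, hw'⟩
  · obtain ⟨u', hu', -, h2⟩ := h i a ha
    obtain ⟨w', hw', -, h3⟩ := h2 b hb
    rw [hep] at hu
    rw [hem'] at hw
    obtain rfl := Part.mem_unique hu hu'
    obtain rfl := Part.mem_unique hw hw'
    exact h3 hc

theorem Ent.real {I : Type} {φ ψ : I → Sst} (h : Ent φ ψ) :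
    ∃ f : ℕ → Part ℕ, ∃ g : ℕ × ℕ → Part ℕ, Partrec f ∧ Partrec g ∧ Rz f g φ ψ := by
  obtain ⟨ep, em, h1, h2, h3⟩ := h
  refine ⟨app ep, fun p => app em (Nat.pair p.1 p.2), partrec_app ep,
    (partrec_app em).comp (Primrec₂.natPair.to_comp.comp Computable.fst Computable.snd), ?_⟩
  intro i a ha
  obtain ⟨u, hu, hu'⟩ := h1 i a ha
  refine ⟨u, hu, hu', fun b hb => ?_⟩
  obtain ⟨w, hw, hw'⟩ := h2 i a ha b hb
  exact ⟨w, hw, hw', fun hc => h3 i a ha b hb u hu w hw hc⟩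

/-! ### Unions -/

theorem lor_mod (a b n : ℕ) : (a ||| b) % 2 ^ n =
    Nat.rec (motive := fun _ => ℕ) 0
      (fun i s => s + 2 ^ i * max (a / 2 ^ i % 2) (b / 2 ^ i % 2)) n := by
  induction n with
  | zero => simp [Nat.mod_one]
  | succ n ih =>
    rw [Nat.mod_pow_succ, ih]
    simp only
    congr 2
    have h1 := Nat.testBit_eq_decide_div_mod_eq (x := a ||| b) (i := n)
    rw [Nat.testBit_or, Nat.testBit_eq_decide_div_mod_eq, Nat.testBit_eq_decide_div_mod_eq] at h1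
    have h2 := Nat.mod_two_eq_zero_or_one ((a ||| b) / 2 ^ n)
    have h3 := Nat.mod_two_eq_zero_or_one (a / 2 ^ n)
    have h4 := Nat.mod_two_eq_zero_or_one (b / 2 ^ n)
    rcases h2 with h2 | h2 <;> rcases h3 with h3 | h3 <;> rcases h4 with h4 | h4 <;>
      simp [h2, h3, h4] at h1 ⊢

theorem primrec_pow : Primrec₂ ((· ^ ·) : ℕ → ℕ → ℕ) := Primrec₂.unpaired'.1 Nat.Primrec.pow

theorem primrec_dg : Primrec₂ (fun a i : ℕ => a / 2 ^ i % 2) :=
  Primrec.nat_mod.comp (Primrec.nat_div.comp Primrec.fst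
    (primrec_pow.comp (Primrec.const 2) Primrec.snd)) (Primrec.const 2)

theorem primrec_lor : Primrec₂ (fun a b : ℕ => a ||| b) := by
  have h : Primrec₂ (fun (p : ℕ × ℕ) (q : ℕ × ℕ) =>
      q.2 + 2 ^ q.1 * max (p.1 / 2 ^ q.1 % 2) (p.2 / 2 ^ q.1 % 2)) := by
    have q1 : Primrec (fun r : (ℕ × ℕ) × (ℕ × ℕ) => r.2.1) := Primrec.fst.comp Primrec.snd
    refine Primrec.nat_add.comp (Primrec.snd.comp Primrec.snd) (Primrec.nat_mul.comp
      (primrec_pow.comp (Primrec.const 2) q1) (Primrec.nat_max.comp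
      (primrec_dg.comp (Primrec.fst.comp Primrec.fst) q1)
      (primrec_dg.comp (Primrec.snd.comp Primrec.fst) q1)))
  have h2 := Primrec.nat_rec' (f := fun p : ℕ × ℕ => p.1 + p.2 + 1)
    (Primrec.succ.comp (Primrec.nat_add.comp Primrec.fst Primrec.snd)) (Primrec.const 0) h
  refine h2.of_eq fun p => ?_
  refine (lor_mod p.1 p.2 (p.1 + p.2 + 1)).symm.trans ?_
  apply Nat.mod_eq_of_lt
  have h3 : ∀ n m : ℕ, n ≤ m → n < 2 ^ (m + 1) := fun n m h =>
    lt_of_lt_of_le Nat.lt_two_pow_self (Nat.pow_le_pow_right (by norm_num) (by omega))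
  exact Nat.or_lt_two_pow (h3 _ _ (by omega)) (h3 _ _ (by omega))

theorem computable_testBit : Computable (fun p : ℕ × ℕ => p.1.testBit p.2) := by
  have h : PrimrecPred (fun p : ℕ × ℕ => p.1 / 2 ^ p.2 % 2 = 1) :=
    PrimrecRel.comp Primrec.eq (primrec_dg.comp Primrec.fst Primrec.snd) (Primrec.const 1)
  obtain ⟨hD, h⟩ := h
  refine h.to_comp.of_eq fun p => ?_
  rw [Nat.testBit_eq_decide_div_mod_eq]
  congr

/-- Membership in a finite set. -/
def tb (p : ℕ × ℕ) : Bool := p.1.testBit p.2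

theorem computable_tb : Computable tb := computable_testBit

theorem tb_eq (a c : ℕ) : tb (a, c) = a.testBit c := rfl

attribute [irreducible] tb

/-- Union of two finite sets. -/
def un (a b : ℕ) : ℕ := a ||| b

theorem computable_un : Computable₂ un := primrec_lor.to_comp

theorem testBit_un (a b k : ℕ) : (un a b).testBit k = (a.testBit k || b.testBit k) :=
  Nat.testBit_or a b k

attribute [irreducible] un

/-- One step of the computation of a finite union. -/
def stepU (g : ℕ × ℕ → Part ℕ) (p : ℕ × ℕ) (q : ℕ × ℕ) : Part ℕ :=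
  bif tb (p.2, q.1) then (g (p.1, q.1)).map (fun v => un q.2 v) else Part.some q.2

/-- The union of the sets `g (a, c)`, `c` in the finite set `w`, `c < n`, `p = (a, w)`. -/
def bigU (g : ℕ × ℕ → Part ℕ) (p : ℕ × ℕ) (n : ℕ) : Part ℕ :=
  Nat.rec (motive := fun _ => Part ℕ) (Part.some 0)
    (fun c s => s.bind fun u => stepU g p (c, u)) n

theorem partrec_step {g : ℕ × ℕ → Part ℕ} (hg : Partrec g) : Partrec₂ (stepU g) := by
  have c0 : Computable (fun r : (ℕ × ℕ) × (ℕ × ℕ) => (r.1.2, r.2.1)) :=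
    Computable.pair (Computable.snd.comp Computable.fst) (Computable.fst.comp Computable.snd)
  have c1 : Computable (fun r : (ℕ × ℕ) × (ℕ × ℕ) => tb (r.1.2, r.2.1)) :=
    computable_tb.comp c0
  have c2 : Computable (fun r : (ℕ × ℕ) × (ℕ × ℕ) => (r.1.1, r.2.1)) :=
    Computable.pair (Computable.fst.comp Computable.fst) (Computable.fst.comp Computable.snd)
  have c3 : Partrec (fun r : (ℕ × ℕ) × (ℕ × ℕ) => g (r.1.1, r.2.1)) := Partrec.comp hg c2
  have c4 : Computable₂ (fun (r : (ℕ × ℕ) × (ℕ × ℕ)) (v : ℕ) => un r.2.2 v) :=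
    computable_un.comp (Computable.snd.comp (Computable.snd.comp Computable.fst)) Computable.snd
  have c5 : Partrec (fun r : (ℕ × ℕ) × (ℕ × ℕ) => (g (r.1.1, r.2.1)).map (fun v => un r.2.2 v)) :=
    Partrec.map c3 c4
  have c6' : Computable (fun r : (ℕ × ℕ) × (ℕ × ℕ) => r.2.2) :=
    Computable.snd.comp Computable.snd
  have c6 : Partrec (fun r : (ℕ × ℕ) × (ℕ × ℕ) => Part.some r.2.2) := Computable.partrec c6'
  have c7 := Partrec.cond c1 c5 c6
  exact c7

theorem partrec_bigU {g : ℕ × ℕ → Part ℕ} (hg : Partrec g) :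
    Partrec (fun p : ℕ × ℕ => bigU g p p.2) := by
  have h0 : Partrec (fun _ : ℕ × ℕ => Part.some (0 : ℕ)) := (Computable.const 0).partrec
  exact Partrec.nat_rec Computable.snd h0 (partrec_step hg)

theorem bigU_spec {g : ℕ × ℕ → Part ℕ} {a w : ℕ} (n : ℕ)
    (h : ∀ c, w.testBit c = true → ∃ v, v ∈ g (a, c)) :
    ∃ u ∈ bigU g (a, w) n, (∀ k, u.testBit k = true ↔ ∃ c < n, w.testBit c = true ∧
      ∃ v ∈ g (a, c), v.testBit k = true) := by
  induction n with
  | zero => exact ⟨0, Part.mem_some _, fun k => by simp⟩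
  | succ n ih =>
    obtain ⟨u, hu, hu'⟩ := ih
    rcases hb : w.testBit n with _ | _
    · refine ⟨u, ?_, fun k => ?_⟩
      · show u ∈ (bigU g (a, w) n).bind _
        rw [Part.mem_bind_iff]
        refine ⟨u, hu, ?_⟩
        unfold stepU
        simp only [tb_eq, hb, cond_false]
        exact Part.mem_some _
      · rw [hu']
        constructor
        · rintro ⟨c, hc, h1, h2⟩
          exact ⟨c, by omega, h1, h2⟩
        · rintro ⟨c, hc, h1, h2⟩
          rcases Nat.lt_succ_iff_lt_or_eq.1 hc with hc | rfl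
          · exact ⟨c, hc, h1, h2⟩
          · rw [hb] at h1
            exact absurd h1 (by simp)
    · obtain ⟨v, hv⟩ := h n hb
      refine ⟨un u v, ?_, fun k => ?_⟩
      · show un u v ∈ (bigU g (a, w) n).bind _
        rw [Part.mem_bind_iff]
        refine ⟨u, hu, ?_⟩
        unfold stepU
        simp only [tb_eq, hb, cond_true]
        exact Part.mem_map _ hv
      · rw [testBit_un, Bool.or_eq_true, hu']
        constructor
        · rintro (⟨c, hc, h1, h2⟩ | h1)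
          · exact ⟨c, by omega, h1, h2⟩
          · exact ⟨n, by omega, hb, v, hv, h1⟩
        · rintro ⟨c, hc, h1, v', hv', h2⟩
          rcases Nat.lt_succ_iff_lt_or_eq.1 hc with hc | rfl
          · exact Or.inl ⟨c, hc, h1, v', hv', h2⟩
          · right
            rwa [Part.mem_unique hv hv']

theorem testBit_lt {w c : ℕ} (h : w.testBit c = true) : c < w :=
  lt_of_lt_of_le Nat.lt_two_pow_self (Nat.ge_two_pow_of_testBit h)

/-! ### Structural rules -/

theorem Ent.refl {I : Type} (φ : I → Sst) : Ent φ φ := by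
  have hp : Primrec (fun p : ℕ × ℕ => 2 ^ p.2) :=
    primrec_pow.comp (Primrec.const 2) Primrec.snd
  refine ent_of (f := fun a => Part.some a) (g := fun p => Part.some (2 ^ p.2))
    Computable.id.partrec hp.to_comp.partrec ?_
  intro i a ha
  refine ⟨a, Part.mem_some _, ha, fun b hb => ⟨2 ^ b, Part.mem_some _, ?_, fun h => ?_⟩⟩
  · intro k hk
    rw [Nat.testBit_two_pow] at hk
    have : b = k := by simpa using hk
    rwa [← this]
  · exact h b (by rw [Nat.testBit_two_pow]; simp)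

theorem Ent.trans {I : Type} {φ ψ θ : I → Sst} (h1 : Ent φ ψ) (h2 : Ent ψ θ) : Ent φ θ := by
  obtain ⟨f1, g1, hf1, hg1, r1⟩ := h1.real
  obtain ⟨f2, g2, hf2, hg2, r2⟩ := h2.real
  have hf : Partrec (fun a => (f1 a).bind f2) := by
    have c1 : Partrec₂ (fun (_ : ℕ) (u : ℕ) => f2 u) := hf2.comp Computable.snd
    exact hf1.bind c1
  have hg : Partrec (fun p : ℕ × ℕ => (f1 p.1).bind fun u => (g2 (u, p.2)).bind fun w =>
      bigU g1 (p.1, w) w) := by
    have c1 : Partrec (fun p : ℕ × ℕ => f1 p.1) := hf1.comp Computable.fst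
    have c2 : Computable (fun q : (ℕ × ℕ) × ℕ => (q.2, q.1.2)) :=
      Computable.pair Computable.snd (Computable.snd.comp Computable.fst)
    have c3 : Partrec (fun q : (ℕ × ℕ) × ℕ => g2 (q.2, q.1.2)) := hg2.comp c2
    have c4 : Computable (fun q : ((ℕ × ℕ) × ℕ) × ℕ => (q.1.1.1, q.2)) :=
      Computable.pair (Computable.fst.comp (Computable.fst.comp Computable.fst)) Computable.snd
    have c5 : Partrec₂ (fun (q : (ℕ × ℕ) × ℕ) (w : ℕ) => bigU g1 (q.1.1, w) w) :=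
      (partrec_bigU hg1).comp c4
    have c6 : Partrec₂ (fun (p : ℕ × ℕ) (u : ℕ) => (g2 (u, p.2)).bind fun w =>
      bigU g1 (p.1, w) w) := c3.bind c5
    exact c1.bind c6
  refine ent_of hf hg fun i a ha => ?_
  obtain ⟨u, hu, hu', k1⟩ := r1 i a ha
  obtain ⟨v, hv, hv', k2⟩ := r2 i u hu'
  refine ⟨v, Part.mem_bind_iff.2 ⟨u, hu, hv⟩, hv', fun b hb => ?_⟩
  obtain ⟨w, hw, hw', k3⟩ := k2 b hb
  obtain ⟨s, hs, hs'⟩ := bigU_spec (g := g1) (a := a) (w := w) w fun c hc => by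
    obtain ⟨t, ht, -⟩ := k1 c (hw' c hc)
    exact ⟨t, ht⟩
  refine ⟨s, Part.mem_bind_iff.2 ⟨u, hu, Part.mem_bind_iff.2 ⟨w, hw, hs⟩⟩, ?_, fun hc => k3 ?_⟩
  · intro k hk
    obtain ⟨c, -, hc, t, ht, htk⟩ := (hs' k).1 hk
    obtain ⟨t', ht', ht'', -⟩ := k1 c (hw' c hc)
    rw [Part.mem_unique ht ht'] at htk
    exact ht'' k htk
  · intro c hwc
    obtain ⟨t, ht, ht', k4⟩ := k1 c (hw' c hwc)
    exact k4 fun d hd => hc d ((hs' d).2 ⟨c, testBit_lt hwc, hwc, t, ht, hd⟩)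

theorem Ent.reindex {I J : Type} {φ ψ : I → Sst} (h : Ent φ ψ) (u : J → I) :
    Ent (fun j => φ (u j)) (fun j => ψ (u j)) := by
  obtain ⟨ep, em, h1, h2, h3⟩ := h
  exact ⟨ep, em, fun j => h1 (u j), fun j => h2 (u j), fun j => h3 (u j)⟩

end Q204.DS
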